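import Mathlib
import Pool.Agent.V11259.CeRel

/-!
The variety of sets with infinitely many named constants: for every `n` the isomorphism relation
of the `n`-generated c.e. algebras is computably bi-reducible with equality of c.e. sets.
-/

set_option autoImplicit false

open Encodable Denumerable
open V11259.RE V11259.CeAlg V11259.CeRel

namespace Pool.Agent.Results.MP_f76ce6_lc.Constants

/-- `V` is nontrivial: it contains an algebra with at least two elements. -/
def Nontriv (V : Variety) : Prop := ∃ A : Alg V.sig, V.Mem A ∧ ∃ a b : A.carrier, a ≠ b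

theorem dec_univ : ComputablePred fun f : ℕ => f ∈ (Set.univ : Set ℕ) := by
  have h : PrimrecPred fun x : ℕ => (0 : ℕ) = 0 :=
    Primrec.eq.comp (Primrec.const 0) (Primrec.const 0)
  exact h.computablePred.of_eq fun x => by simp

/-- the variety of sets with constants `c₀, c₁, …` -/
abbrev VC : Variety := constVar Set.univ dec_univ

/-- terms in `n` generators -/
abbrev T (n : ℕ) := Term VC.sig (Fin n)

/-- the constant `c` -/
abbrev k (n : ℕ) (c : ℕ) : T n := cst c (Set.mem_univ c)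

variable {n : ℕ}

/-- the congruence of the presentation `e` -/
abbrev θ (n e : ℕ) (s t : T n) : Prop := Cong VC (relOf (W e)) s t

theorem cd_k (c : ℕ) : cd (k n c) = 2 * Nat.pair c 0 + 1 := cd_cst c _

theorem cases' {p : T n → Prop} (h1 : ∀ i, p (.var i)) (h2 : ∀ c, p (k n c)) (t : T n) : p t :=
  term_cases h1 (fun c _ => h2 c) t

/-- being the code of a term -/
def IsCode (n a : ℕ) : Bool := (decide (a % 2 = 0) && decide (a / 2 < n)) ||
  (decide (a % 2 = 1) && decide ((a / 2).unpair.2 = 0))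

theorem isCode_prim (n : ℕ) : Primrec (IsCode n) := by
  unfold IsCode
  refine Primrec.or.comp (Primrec.and.comp ?_ ?_) (Primrec.and.comp ?_ ?_)
  · exact (Primrec.eq.comp (Primrec.nat_mod.comp Primrec.id (Primrec.const 2))
      (Primrec.const 0)).decide
  · exact (Primrec.nat_lt.comp (Primrec.nat_div.comp Primrec.id (Primrec.const 2))
      (Primrec.const n)).decide
  · exact (Primrec.eq.comp (Primrec.nat_mod.comp Primrec.id (Primrec.const 2))
      (Primrec.const 1)).decide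
  · exact (Primrec.eq.comp (Primrec.snd.comp (Primrec.unpair.comp
      (Primrec.nat_div.comp Primrec.id (Primrec.const 2)))) (Primrec.const 0)).decide

theorem isCode_iff {a : ℕ} : IsCode n a = true ↔ ∃ t : T n, cd t = a := by
  constructor
  · intro h
    simp only [IsCode, Bool.or_eq_true, Bool.and_eq_true, decide_eq_true_eq] at h
    rcases h with ⟨h1, h2⟩ | ⟨h1, h2⟩
    · refine ⟨.var ⟨a / 2, h2⟩, ?_⟩
      rw [cd_var]
      show 2 * (a / 2) = a
      omega
    · refine ⟨k n (a / 2).unpair.1, ?_⟩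
      rw [cd_k]
      have h3 : Nat.pair (a / 2).unpair.1 0 = a / 2 := by
        conv_rhs => rw [← Nat.pair_unpair (a / 2)]
        rw [h2]
      rw [h3]; omega
  · rintro ⟨t, rfl⟩
    refine cases' (p := fun t => IsCode n (cd t) = true) ?_ ?_ t
    · intro i
      rw [cd_var]
      have h1 : 2 * (i : ℕ) % 2 = 0 := by omega
      have h2 : 2 * (i : ℕ) / 2 = i := by omega
      simp [IsCode, h1, h2]
    · intro c
      rw [cd_k]
      have h1 : (2 * Nat.pair c 0 + 1) % 2 = 1 := by omega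
      have h2 : (2 * Nat.pair c 0 + 1) / 2 = Nat.pair c 0 := by omega
      simp [IsCode, h1, h2]

/-- rules deriving the congruence on codes -/
def rule (n : ℕ) (q : ℕ × (List (ℕ × ℕ) × (ℕ × ℕ))) : Prop :=
  (IsCode n q.2.2.1 = true ∧ IsCode n q.2.2.2 = true) ∧
    ((Nat.pair q.2.2.1 q.2.2.2 ∈ W q.1 ∨ q.2.2.1 = q.2.2.2) ∨
      ((q.2.2.2, q.2.2.1) ∈ q.2.1 ∨ ∃ c, (q.2.2.1, c) ∈ q.2.1 ∧ (c, q.2.2.2) ∈ q.2.1))

theorem mem_prim : PrimrecPred fun q : (ℕ × ℕ) × List (ℕ × ℕ) => q.1 ∈ q.2 := by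
  have h5 : PrimrecRel fun (l : List (ℕ × ℕ)) (y : ℕ × ℕ) => ∃ a ∈ l, a = y :=
    PrimrecRel.exists_mem_list (R := fun a b : ℕ × ℕ => a = b) Primrec.eq
  exact (PrimrecPred.comp (f := fun q : (ℕ × ℕ) × List (ℕ × ℕ) => (q.2, q.1)) h5
    (Primrec.pair Primrec.snd Primrec.fst)).of_eq fun q => by simp

theorem rule_re (n : ℕ) : REPred (rule n) := by
  have a1 : Primrec fun q : ℕ × (List (ℕ × ℕ) × (ℕ × ℕ)) => q.2.2.1 :=
    Primrec.fst.comp (Primrec.snd.comp Primrec.snd)
  have a2 : Primrec fun q : ℕ × (List (ℕ × ℕ) × (ℕ × ℕ)) => q.2.2.2 :=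
    Primrec.snd.comp (Primrec.snd.comp Primrec.snd)
  have a3 : Primrec fun q : ℕ × (List (ℕ × ℕ) × (ℕ × ℕ)) => q.2.1 :=
    Primrec.fst.comp Primrec.snd
  refine and (and ?_ ?_) (or (or ?_ ?_) (or ?_ ?_))
  · exact of_bool ((isCode_prim n).comp a1).to_comp
  · exact of_bool ((isCode_prim n).comp a2).to_comp
  · exact comp re_W (f := fun q : ℕ × (List (ℕ × ℕ) × (ℕ × ℕ)) =>
      (q.1, Nat.pair q.2.2.1 q.2.2.2))
      (Primrec.to_comp (Primrec.fst.pair (Primrec₂.natPair.comp a1 a2)))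
  · exact of_prim (Primrec.eq.comp a1 a2)
  · exact of_prim (mem_prim.comp (f := fun q : ℕ × (List (ℕ × ℕ) × (ℕ × ℕ)) =>
      ((q.2.2.2, q.2.2.1), q.2.1)) ((a2.pair a1).pair a3))
  · refine ex (p := fun q : (ℕ × (List (ℕ × ℕ) × (ℕ × ℕ))) × ℕ =>
      (q.1.2.2.1, q.2) ∈ q.1.2.1 ∧ (q.2, q.1.2.2.2) ∈ q.1.2.1) (and ?_ ?_)
    · exact of_prim (mem_prim.comp (f := fun q : (ℕ × (List (ℕ × ℕ) × (ℕ × ℕ))) × ℕ =>
        ((q.1.2.2.1, q.2), q.1.2.1)) (((a1.comp Primrec.fst).pair Primrec.snd).pair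
          (a3.comp Primrec.fst)))
    · exact of_prim (mem_prim.comp (f := fun q : (ℕ × (List (ℕ × ℕ) × (ℕ × ℕ))) × ℕ =>
        ((q.2, q.1.2.2.2), q.1.2.1)) ((Primrec.snd.pair (a2.comp Primrec.fst)).pair
          (a3.comp Primrec.fst)))

theorem der_iff' {e a b : ℕ} : Der (fun l x => rule n (e, l, x)) (a, b) ↔
    ∃ s t : T n, cd s = a ∧ cd t = b ∧ θ n e s t := by
  constructor
  · intro h
    have key : ∀ x : ℕ × ℕ, Der (fun l x => rule n (e, l, x)) x →
        ∃ s t : T n, cd s = x.1 ∧ cd t = x.2 ∧ θ n e s t := by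
      intro x hx
      induction hx with
      | mk l x hR hl ih =>
        obtain ⟨⟨h1, h2⟩, h3⟩ := hR
        simp only at h1 h2 h3
        obtain ⟨s, hs⟩ := isCode_iff.1 h1
        obtain ⟨t, ht⟩ := isCode_iff.1 h2
        refine ⟨s, t, hs, ht, ?_⟩
        rcases h3 with (h3 | h3) | (h3 | ⟨c, h3, h4⟩)
        · refine Cong.rel ?_
          show Nat.pair (cd s) (cd t) ∈ W e
          rw [hs, ht]; exact h3
        · have : s = t := cd_inj (by rw [hs, ht, h3])
          rw [this]; exact Cong.refl t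
        · obtain ⟨t', s', ht', hs', h5⟩ := ih _ h3
          have e1 : s = s' := cd_inj (by rw [hs, hs'])
          have e2 : t = t' := cd_inj (by rw [ht, ht'])
          rw [e1, e2]; exact h5.symm
        · obtain ⟨s', u, hs', hu, h5⟩ := ih _ h3
          obtain ⟨u', t', hu', ht', h6⟩ := ih _ h4
          have e1 : s = s' := cd_inj (by rw [hs, hs'])
          have e2 : t = t' := cd_inj (by rw [ht, ht'])
          have e3 : u = u' := cd_inj (by rw [hu, hu'])
          rw [e1, e2]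
          subst e3
          exact h5.trans h6
    exact key (a, b) h
  · rintro ⟨s, t, rfl, rfl, h⟩
    have code : ∀ s : T n, IsCode n (cd s) = true := fun s => isCode_iff.2 ⟨s, rfl⟩
    induction h with
    | @rel s t h => exact Der.mk [] _ ⟨⟨code s, code t⟩, Or.inl (Or.inl h)⟩ (by simp)
    | law hl ρ => exact absurd hl (Set.notMem_empty _)
    | refl t => exact Der.mk [] _ ⟨⟨code t, code t⟩, Or.inl (Or.inr rfl)⟩ (by simp)
    | @symm s t _ ih =>
      exact Der.mk [(cd s, cd t)] _ ⟨⟨code t, code s⟩, Or.inr (Or.inl (by simp))⟩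
        (by simpa using ih)
    | @trans s t u _ _ ih1 ih2 =>
      refine Der.mk [(cd s, cd t), (cd t, cd u)] _ ⟨⟨code s, code u⟩,
        Or.inr (Or.inr ⟨cd t, by simp⟩)⟩ ?_
      intro y hy
      simp only [List.mem_cons, List.not_mem_nil, or_false] at hy
      rcases hy with rfl | rfl
      · exact ih1
      · exact ih2
    | app f hf _ ih =>
      rw [app_eq_cst, app_eq_cst]
      exact Der.mk [] _ ⟨⟨code _, code _⟩, Or.inl (Or.inr rfl)⟩ (by simp)

theorem re_θ (n : ℕ) : REPred fun q : ℕ × (ℕ × ℕ) =>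
    ∃ s t : T n, cd s = q.2.1 ∧ cd t = q.2.2 ∧ θ n q.1 s t :=
  (re_der (rule_re n)).of_eq fun _ => der_iff'

theorem θ_iff {e : ℕ} {s t : T n} :
    (∃ s' t' : T n, cd s' = cd s ∧ cd t' = cd t ∧ θ n e s' t') ↔ θ n e s t := by
  constructor
  · rintro ⟨s', t', h1, h2, h3⟩
    rw [cd_inj h1, cd_inj h2] at h3
    exact h3
  · intro h
    exact ⟨s, t, rfl, rfl, h⟩

/-! ### Isomorphism types -/

/-- the underlying set of the algebra presented by `e` -/
abbrev K (n e : ℕ) := (present VC (X := Fin n) (relOf (W e))).carrier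

/-- the class of a term -/
abbrev cl (e : ℕ) (t : T n) : K n e := cls (relOf (W e)) t

/-- the elements that are values of constants -/
def consts (n e : ℕ) : Set (K n e) := Set.range fun c => cl e (k n c)

theorem free_finite (n e : ℕ) : ((consts n e)ᶜ).Finite := by
  refine (Set.finite_range fun i : Fin n => (cl e (.var i) : K n e)).subset ?_
  intro x hx
  obtain ⟨t, rfl⟩ := cls_surj x
  revert hx
  refine cases' (p := fun t => cl e t ∈ (consts n e)ᶜ →
    cl e t ∈ Set.range fun i : Fin n => (cl e (.var i) : K n e)) ?_ ?_ t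
  · intro i _; exact ⟨i, rfl⟩
  · intro c h; exact absurd ⟨c, rfl⟩ h

theorem iso_iff {n e e' : ℕ} : isoRel VC n e e' ↔
    (∀ a b, θ n e (k n a) (k n b) ↔ θ n e' (k n a) (k n b)) ∧
      ((consts n e)ᶜ).ncard = ((consts n e')ᶜ).ncard := by
  constructor
  · rintro ⟨φ, hφ⟩
    have hc : ∀ c, φ (cls (relOf (W e)) (k n c)) = cls (relOf (W e')) (k n c) := fun c =>
      iso_cst φ hφ c (Set.mem_univ c)
    refine ⟨fun a b => ?_, ?_⟩
    · have e1 : φ (cls (relOf (W e)) (k n a)) = φ (cls (relOf (W e)) (k n b)) ↔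
        cls (relOf (W e)) (k n a) = cls (relOf (W e)) (k n b) := φ.injective.eq_iff
      rw [hc, hc] at e1
      exact cls_eq.symm.trans (e1.symm.trans cls_eq)
    · have e2 : (φ : K n e → K n e') '' (consts n e)ᶜ = (consts n e')ᶜ := by
        rw [Set.image_compl_eq φ.bijective]
        congr 1
        ext x
        constructor
        · rintro ⟨_, ⟨c, rfl⟩, rfl⟩
          exact ⟨c, (hc c).symm⟩
        · rintro ⟨c, rfl⟩
          exact ⟨_, ⟨c, rfl⟩, hc c⟩
      rw [← e2]
      exact (Set.ncard_image_of_injective _ φ.injective).symm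
  · rintro ⟨h1, h2⟩
    have hfin := free_finite n e
    have hfin' := free_finite n e'
    obtain ⟨ψ⟩ : Nonempty (((consts n e)ᶜ : Set (K n e)) ≃ ((consts n e')ᶜ : Set (K n e'))) := by
      have f1 : Finite ((consts n e)ᶜ : Set (K n e)) := hfin
      have f2 : Finite ((consts n e')ᶜ : Set (K n e')) := hfin'
      exact Finite.card_eq.1 h2
    have hχ : ∃ χ : K n e → K n e', (∀ c, χ (cl e (k n c)) = cl e' (k n c)) ∧
        ∀ (x : K n e) (hx : x ∈ (consts n e)ᶜ), χ x = ψ ⟨x, hx⟩ := by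
      classical
      have hsel : ∀ x : K n e, ∃ c, x ∈ consts n e → cl e (k n c) = x := by
        intro x
        by_cases hx : x ∈ consts n e
        · obtain ⟨c, hc⟩ := hx
          exact ⟨c, fun _ => hc⟩
        · exact ⟨0, fun h => absurd h hx⟩
      choose r hr using hsel
      refine ⟨fun x => if h : x ∈ (consts n e)ᶜ then (ψ ⟨x, h⟩ : K n e') else cl e' (k n (r x)),
        fun c => ?_, fun x hx => ?_⟩
      · have h : cl e (k n c) ∈ consts n e := ⟨c, rfl⟩
        have h3 := hr _ h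
        have h4 : ¬ (cl e (k n c) ∈ (consts n e)ᶜ) := fun h5 => h5 h
        simp only [dif_neg h4]
        exact cls_eq.2 ((h1 _ _).1 (cls_eq.1 h3))
      · simp only [dif_pos hx]
    obtain ⟨χ, hχ1, hχ2⟩ := hχ
    have hbij : Function.Bijective χ := by
      constructor
      · intro x y hxy
        by_cases hx : x ∈ consts n e
        · obtain ⟨c, rfl⟩ := hx
          by_cases hy : y ∈ consts n e
          · obtain ⟨d, rfl⟩ := hy
            simp only [hχ1] at hxy
            exact cls_eq.2 ((h1 _ _).2 (cls_eq.1 hxy))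
          · exfalso
            simp only [hχ1] at hxy
            rw [hχ2 y hy] at hxy
            exact (ψ ⟨y, hy⟩).2 ⟨c, hxy⟩
        · by_cases hy : y ∈ consts n e
          · exfalso
            obtain ⟨d, rfl⟩ := hy
            simp only [hχ1] at hxy
            rw [hχ2 x hx] at hxy
            exact (ψ ⟨x, hx⟩).2 ⟨d, hxy.symm⟩
          · rw [hχ2 x hx, hχ2 y hy] at hxy
            have := ψ.injective (Subtype.ext hxy)
            exact congrArg Subtype.val this
      · intro y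
        by_cases hy : y ∈ consts n e'
        · obtain ⟨d, rfl⟩ := hy
          exact ⟨cl e (k n d), hχ1 d⟩
        · refine ⟨(ψ.symm ⟨y, hy⟩ : K n e), ?_⟩
          rw [hχ2 _ (ψ.symm ⟨y, hy⟩).2]
          simp
    exact iso_of_cst (Equiv.ofBijective χ hbij) fun c _ => hχ1 c

theorem free_le_iff {n e j : ℕ} : ((consts n e)ᶜ).ncard ≤ j ↔
    ∃ L : List ℕ, L.length ≤ j ∧ ∀ i ∈ List.range n,
      (∃ c, ∃ s t : T n, cd s = 2 * i ∧ cd t = 2 * Nat.pair c 0 + 1 ∧ θ n e s t) ∨
      ∃ m ∈ L, ∃ s t : T n, cd s = 2 * i ∧ cd t = 2 * m ∧ θ n e s t := by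
  classical
  have hvar : ∀ (m : ℕ) (t : T n), cd t = 2 * m → ∃ h : m < n, t = .var ⟨m, h⟩ := by
    intro m t
    refine cases' (p := fun t => cd t = 2 * m → ∃ h : m < n, t = .var ⟨m, h⟩) ?_ ?_ t
    · intro i hi
      rw [cd_var] at hi
      have : (i : ℕ) = m := by omega
      subst this
      exact ⟨i.2, rfl⟩
    · intro c hc
      rw [cd_k] at hc
      omega
  constructor
  · intro h
    have hfin := free_finite n e
    have hrep : ∀ x : K n e, ∃ i : ℕ, x ∈ (consts n e)ᶜ → ∃ h : i < n, cl e (.var ⟨i, h⟩) = x := by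
      intro x
      by_cases hx : x ∈ (consts n e)ᶜ
      · obtain ⟨t, rfl⟩ := cls_surj x
        revert hx
        refine cases' (p := fun t => cl e t ∈ (consts n e)ᶜ → ∃ i : ℕ,
          cl e t ∈ (consts n e)ᶜ → ∃ h : i < n, cl e (.var ⟨i, h⟩) = cl e t) ?_ ?_ t
        · intro i _; exact ⟨i, fun _ => ⟨i.2, rfl⟩⟩
        · intro c h; exact absurd ⟨c, rfl⟩ h
      · exact ⟨0, fun h => absurd h hx⟩
    choose r hr using hrep
    refine ⟨hfin.toFinset.toList.map r, ?_, ?_⟩
    · rw [List.length_map, Finset.length_toList, ← Set.ncard_eq_toFinset_card _ hfin]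
      exact h
    · intro i hi
      rw [List.mem_range] at hi
      by_cases hx : (cl e (.var ⟨i, hi⟩) : K n e) ∈ consts n e
      · left
        obtain ⟨c, hc⟩ := hx
        exact ⟨c, .var ⟨i, hi⟩, k n c, cd_var _, cd_k c, (cls_eq.1 hc).symm⟩
      · right
        obtain ⟨h1, h2⟩ := hr (cl e (.var ⟨i, hi⟩)) hx
        refine ⟨r (cl e (.var ⟨i, hi⟩)), ?_, .var ⟨i, hi⟩, .var ⟨_, h1⟩, cd_var _, cd_var _,
          (cls_eq.1 h2).symm⟩
        rw [List.mem_map]
        refine ⟨_, ?_, rfl⟩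
        rw [Finset.mem_toList, Set.Finite.mem_toFinset]
        exact hx
  · rintro ⟨L, hL, h⟩
    have hsub : (consts n e)ᶜ ⊆ (fun m : ℕ => if h : m < n then (cl e (.var ⟨m, h⟩) : K n e)
        else cl e (k n 0)) '' (L.toFinset : Set ℕ) := by
      intro x hx
      obtain ⟨t, rfl⟩ := cls_surj x
      revert hx
      refine cases' (p := fun t => cl e t ∈ (consts n e)ᶜ → cl e t ∈
        (fun m : ℕ => if h : m < n then (cl e (.var ⟨m, h⟩) : K n e)
        else cl e (k n 0)) '' (L.toFinset : Set ℕ)) ?_ ?_ t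
      · intro i hi
        rcases h i (List.mem_range.2 i.2) with ⟨c, s, t, hs, ht, hst⟩ | ⟨m, hm, s, t, hs, ht, hst⟩
        · exfalso
          obtain ⟨_, rfl⟩ := hvar _ _ hs
          have ht' : t = k n c := cd_inj (by rw [ht, cd_k])
          subst ht'
          exact hi ⟨c, (cls_eq.2 hst).symm⟩
        · obtain ⟨_, rfl⟩ := hvar _ _ hs
          obtain ⟨hmn, rfl⟩ := hvar _ _ ht
          refine ⟨m, by simpa using hm, ?_⟩
          simp only [dif_pos hmn]
          exact (cls_eq.2 hst).symm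
      · intro c h; exact absurd ⟨c, rfl⟩ h
    calc ((consts n e)ᶜ).ncard ≤ _ := Set.ncard_le_ncard hsub ((Finset.finite_toSet _).image _)
      _ ≤ (L.toFinset : Set ℕ).ncard := Set.ncard_image_le (Finset.finite_toSet _)
      _ = L.toFinset.card := Set.ncard_coe_finset _
      _ ≤ L.length := List.toFinset_card_le L
      _ ≤ j := hL

theorem iso_le_ceEq (n : ℕ) : CRed (isoRel VC n) ceEq := by
  have hθ := re_θ n
  have h1 : REPred fun q : ℕ × ℕ => ∃ s t : T n, cd s = 2 * Nat.pair q.2.unpair.1 0 + 1 ∧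
      cd t = 2 * Nat.pair q.2.unpair.2 0 + 1 ∧ θ n q.1 s t := by
    refine comp hθ (f := fun q : ℕ × ℕ =>
      (q.1, (2 * Nat.pair q.2.unpair.1 0 + 1, 2 * Nat.pair q.2.unpair.2 0 + 1))) ?_
    apply Primrec.to_comp
    have c : Primrec fun m : ℕ => 2 * Nat.pair m 0 + 1 :=
      Primrec.succ.comp (Primrec.nat_mul.comp (Primrec.const 2)
        (Primrec₂.natPair.comp Primrec.id (Primrec.const 0)))
    exact Primrec.fst.pair ((c.comp (Primrec.fst.comp (Primrec.unpair.comp Primrec.snd))).pair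
      (c.comp (Primrec.snd.comp (Primrec.unpair.comp Primrec.snd))))
  have h2 : REPred fun q : ℕ × ℕ => ∃ L : List ℕ, L.length ≤ q.2 ∧ ∀ i ∈ List.range n,
      (∃ c, ∃ s t : T n, cd s = 2 * i ∧ cd t = 2 * Nat.pair c 0 + 1 ∧ θ n q.1 s t) ∨
      ∃ m ∈ L, ∃ s t : T n, cd s = 2 * i ∧ cd t = 2 * m ∧ θ n q.1 s t := by
    refine ex (p := fun q : (ℕ × ℕ) × List ℕ => q.2.length ≤ q.1.2 ∧ ∀ i ∈ List.range n,
      (∃ c, ∃ s t : T n, cd s = 2 * i ∧ cd t = 2 * Nat.pair c 0 + 1 ∧ θ n q.1.1 s t) ∨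
      ∃ m ∈ q.2, ∃ s t : T n, cd s = 2 * i ∧ cd t = 2 * m ∧ θ n q.1.1 s t) (and ?_ ?_)
    · exact of_prim (Primrec.nat_le.comp (Primrec.list_length.comp Primrec.snd)
        (Primrec.snd.comp Primrec.fst))
    · have h3 : REPred fun q : ((ℕ × ℕ) × List ℕ) × ℕ =>
          (∃ c, ∃ s t : T n, cd s = 2 * q.2 ∧ cd t = 2 * Nat.pair c 0 + 1 ∧ θ n q.1.1.1 s t) ∨
          ∃ m ∈ q.1.2, ∃ s t : T n, cd s = 2 * q.2 ∧ cd t = 2 * m ∧ θ n q.1.1.1 s t := by
        refine or ?_ ?_
        · refine ex (p := fun q : (((ℕ × ℕ) × List ℕ) × ℕ) × ℕ =>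
            ∃ s t : T n, cd s = 2 * q.1.2 ∧ cd t = 2 * Nat.pair q.2 0 + 1 ∧
              θ n q.1.1.1.1 s t) ?_
          refine comp hθ (f := fun q : (((ℕ × ℕ) × List ℕ) × ℕ) × ℕ =>
            (q.1.1.1.1, (2 * q.1.2, 2 * Nat.pair q.2 0 + 1))) (Primrec.to_comp ?_)
          refine Primrec.pair ?_ (Primrec.pair ?_ ?_)
          · exact Primrec.fst.comp (Primrec.fst.comp (Primrec.fst.comp Primrec.fst))
          · exact Primrec.nat_mul.comp (Primrec.const 2) (Primrec.snd.comp Primrec.fst)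
          · exact Primrec.succ.comp (Primrec.nat_mul.comp (Primrec.const 2)
              (Primrec₂.natPair.comp Primrec.snd (Primrec.const 0)))
        · have h4 : REPred fun q : (((ℕ × ℕ) × List ℕ) × ℕ) × ℕ => q.2 ∈ q.1.1.2 ∧
              ∃ s t : T n, cd s = 2 * q.1.2 ∧ cd t = 2 * q.2 ∧ θ n q.1.1.1.1 s t := by
            refine and ?_ ?_
            · have h5 : PrimrecRel fun (l : List ℕ) (y : ℕ) => ∃ a ∈ l, a = y :=
                PrimrecRel.exists_mem_list (R := fun a b : ℕ => a = b) Primrec.eq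
              exact of_prim ((PrimrecPred.comp (f := fun q : (((ℕ × ℕ) × List ℕ) × ℕ) × ℕ =>
                (q.1.1.2, q.2)) h5 ((Primrec.snd.comp (Primrec.fst.comp Primrec.fst)).pair
                  Primrec.snd)).of_eq fun q => by simp)
            · refine comp hθ (f := fun q : (((ℕ × ℕ) × List ℕ) × ℕ) × ℕ =>
                (q.1.1.1.1, (2 * q.1.2, 2 * q.2))) (Primrec.to_comp ?_)
              refine Primrec.pair ?_ (Primrec.pair ?_ ?_)
              · exact Primrec.fst.comp (Primrec.fst.comp (Primrec.fst.comp Primrec.fst))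
              · exact Primrec.nat_mul.comp (Primrec.const 2) (Primrec.snd.comp Primrec.fst)
              · exact Primrec.nat_mul.comp (Primrec.const 2) Primrec.snd
          exact ex h4
      exact comp (forall_mem h3) (f := fun q : (ℕ × ℕ) × List ℕ => (q, List.range n))
        (Primrec.to_comp (Primrec.id.pair (Primrec.const _)))
  have hp : REPred fun q : ℕ × ℕ =>
      (q.2.unpair.1 = 0 ∧ ∃ s t : T n, cd s = 2 * Nat.pair q.2.unpair.2.unpair.1 0 + 1 ∧
        cd t = 2 * Nat.pair q.2.unpair.2.unpair.2 0 + 1 ∧ θ n q.1 s t) ∨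
      (q.2.unpair.1 = 1 ∧ ∃ L : List ℕ, L.length ≤ q.2.unpair.2 ∧ ∀ i ∈ List.range n,
      (∃ c, ∃ s t : T n, cd s = 2 * i ∧ cd t = 2 * Nat.pair c 0 + 1 ∧ θ n q.1 s t) ∨
      ∃ m ∈ L, ∃ s t : T n, cd s = 2 * i ∧ cd t = 2 * m ∧ θ n q.1 s t) := by
    have a1 : Primrec fun q : ℕ × ℕ => q.2.unpair.1 :=
      Primrec.fst.comp (Primrec.unpair.comp Primrec.snd)
    have a2 : Primrec fun q : ℕ × ℕ => q.2.unpair.2 :=
      Primrec.snd.comp (Primrec.unpair.comp Primrec.snd)
    refine or (and ?_ ?_) (and ?_ ?_)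
    · exact of_prim (Primrec.eq.comp a1 (Primrec.const 0))
    · exact comp h1 (f := fun q : ℕ × ℕ => (q.1, q.2.unpair.2))
        (Primrec.to_comp (Primrec.fst.pair a2))
    · exact of_prim (Primrec.eq.comp a1 (Primrec.const 1))
    · exact comp h2 (f := fun q : ℕ × ℕ => (q.1, q.2.unpair.2))
        (Primrec.to_comp (Primrec.fst.pair a2))
  obtain ⟨f, hf, hf2⟩ := exists_smn hp
  have m0 : ∀ e a b, Nat.pair 0 (Nat.pair a b) ∈ W (f e) ↔ θ n e (k n a) (k n b) := by
    intro e a b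
    rw [hf2]
    simp only [Nat.unpair_pair, true_and, zero_ne_one, false_and, or_false]
    rw [← cd_k (n := n) a, ← cd_k (n := n) b]
    exact θ_iff
  have m1 : ∀ e j, Nat.pair 1 j ∈ W (f e) ↔ ((consts n e)ᶜ).ncard ≤ j := by
    intro e j
    rw [hf2, free_le_iff]
    simp
  refine ⟨f, hf, fun x y => ?_⟩
  rw [iso_iff]
  constructor
  · rintro ⟨h3, h4⟩
    show W (f x) = W (f y)
    ext z
    obtain ⟨u, v, rfl⟩ : ∃ u v, z = Nat.pair u v := ⟨_, _, (Nat.pair_unpair z).symm⟩
    by_cases hu : u = 0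
    · subst hu
      obtain ⟨a, b, rfl⟩ : ∃ a b, v = Nat.pair a b := ⟨_, _, (Nat.pair_unpair v).symm⟩
      rw [m0, m0, h3]
    · by_cases hu1 : u = 1
      · subst hu1
        rw [m1, m1, h4]
      · rw [hf2, hf2]
        simp [hu, hu1]
  · intro h
    have h : W (f x) = W (f y) := h
    refine ⟨fun a b => ?_, ?_⟩
    · rw [← m0, ← m0, h]
    · have h5 : ∀ j, ((consts n x)ᶜ).ncard ≤ j ↔ ((consts n y)ᶜ).ncard ≤ j := by
        intro j; rw [← m1, ← m1, h]
      exact le_antisymm ((h5 _).2 le_rfl) ((h5 _).1 le_rfl)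

theorem ceEq_le_iso (n : ℕ) : CRed ceEq (isoRel VC n) := by
  have hp : REPred fun q : ℕ × ℕ => ∃ j, q.2 = Nat.pair (2 * Nat.pair (2 * j) 0 + 1)
      (2 * Nat.pair (2 * j + 1) 0 + 1) ∧ j ∈ W q.1 := by
    refine ex (p := fun q : (ℕ × ℕ) × ℕ => q.1.2 = Nat.pair (2 * Nat.pair (2 * q.2) 0 + 1)
      (2 * Nat.pair (2 * q.2 + 1) 0 + 1) ∧ q.2 ∈ W q.1.1) (and ?_ ?_)
    · have c : Primrec fun m : ℕ => 2 * Nat.pair m 0 + 1 :=
        Primrec.succ.comp (Primrec.nat_mul.comp (Primrec.const 2)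
          (Primrec₂.natPair.comp Primrec.id (Primrec.const 0)))
      have d : Primrec fun q : (ℕ × ℕ) × ℕ => 2 * q.2 :=
        Primrec.nat_mul.comp (Primrec.const 2) Primrec.snd
      exact of_prim (Primrec.eq.comp (Primrec.snd.comp Primrec.fst)
        (Primrec₂.natPair.comp (c.comp d) (c.comp (Primrec.succ.comp d))))
    · exact comp re_W (f := fun q : (ℕ × ℕ) × ℕ => (q.1.1, q.2))
        (Primrec.to_comp ((Primrec.fst.comp Primrec.fst).pair Primrec.snd))
  obtain ⟨g, hg, hg2⟩ := exists_smn hp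
  have key : ∀ e j, θ n (g e) (k n (2 * j)) (k n (2 * j + 1)) ↔ j ∈ W e := by
    intro e j
    constructor
    · intro h
      classical
      set w : ℕ → ℕ := fun c => if c / 2 ∈ W e then 2 * (c / 2) else c with hw
      obtain ⟨v, hv1, hv2⟩ : ∃ v : T n → ℕ, (∀ i, v (.var i) = 0) ∧ ∀ c, v (k n c) = w c :=
        ⟨fun t => match t with
          | .var _ => 0
          | .app c _ _ => w c, fun i => rfl, fun c => rfl⟩
      have h1 := cong_sound (hC := dec_univ) (R := relOf (W (g e))) v ?_ h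
      · rw [hv2, hv2] at h1
        by_contra hj
        have e1 : 2 * j / 2 = j := by omega
        have e2 : (2 * j + 1) / 2 = j := by omega
        simp only [hw, e1, e2, if_neg hj] at h1
        omega
      · intro s t hst
        have hst : Nat.pair (cd s) (cd t) ∈ W (g e) := hst
        rw [hg2] at hst
        obtain ⟨i, hi1, hi2⟩ := hst
        obtain ⟨q1, q2⟩ := Nat.pair_eq_pair.1 hi1
        have hs : s = k n (2 * i) := cd_inj (by rw [q1, cd_k])
        have ht : t = k n (2 * i + 1) := cd_inj (by rw [q2, cd_k])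
        rw [hs, ht, hv2, hv2]
        have e1 : 2 * i / 2 = i := by omega
        have e2 : (2 * i + 1) / 2 = i := by omega
        simp only [hw, e1, e2, if_pos hi2]
    · intro h
      refine Cong.rel ?_
      show Nat.pair (cd _) (cd _) ∈ W (g e)
      rw [hg2, cd_k, cd_k]
      exact ⟨j, rfl, h⟩
  refine ⟨g, hg, fun x y => ⟨fun h => ?_, fun h => ?_⟩⟩
  · have h1 : W (g x) = W (g y) := by
      ext z
      rw [hg2, hg2]
      show (∃ j, _ ∧ j ∈ W x) ↔ ∃ j, _ ∧ j ∈ W y
      have h : W x = W y := h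
      rw [h]
    show (algOf VC n (W (g x))).Iso (algOf VC n (W (g y)))
    rw [h1]
    exact Alg.Iso.refl _
  · have h1 := (iso_iff.1 h).1
    show W x = W y
    ext j
    rw [← key, ← key, h1]

/-- The isomorphism relations of the classes of `n`-generated c.e. algebras of one nontrivial
variety are all equivalent, and are not `Σ⁰₃`-complete. -/
theorem result : ∃ V : Variety, Nontriv V ∧ ∀ n : ℕ,
    (CRed (isoRel V n) (isoRel V (n + 1)) ∧ CRed (isoRel V (n + 1)) (isoRel V n)) ∧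
    (CRed (isoRel V n) ceEq ∧ CRed ceEq (isoRel V n)) ∧
    (Sigma3 (isoRel V n) ∧ ¬ Sigma3Complete (isoRel V n)) ∧
    (CRed (isoRel V n) ceEq0 ∧ ¬ CRed ceEq0 (isoRel V n)) ∧
    ∀ E : ℕ → ℕ → Prop, Sigma3Complete E →
      CRed (isoRel V n) E ∧ ¬ CRed E (isoRel V n) := by
  refine ⟨VC, ⟨⟨Bool, fun _ _ _ => true⟩, fun l hl => absurd hl (Set.notMem_empty _),
    true, false, by simp⟩, fun n => ?_⟩
  have hS : Sigma3 (isoRel VC n) := Sigma3.of_cred (iso_le_ceEq n) sigma3_ceEq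
  have hnot : ∀ E : ℕ → ℕ → Prop, Sigma3Complete E → ¬ CRed E (isoRel VC n) := by
    intro E hE h
    exact ceEq0_not_le_ceEq (((hE.2.2 _ ceEq0_equivalence sigma3_ceEq0).trans h).trans
      (iso_le_ceEq n))
  refine ⟨⟨(iso_le_ceEq n).trans (ceEq_le_iso (n + 1)),
    (iso_le_ceEq (n + 1)).trans (ceEq_le_iso n)⟩, ⟨iso_le_ceEq n, ceEq_le_iso n⟩,
    ⟨hS, fun h => hnot _ h ⟨id, Computable.id, fun _ _ => Iff.rfl⟩⟩,
    ⟨(iso_le_ceEq n).trans ceEq_le_ceEq0, fun h => ceEq0_not_le_ceEq (h.trans (iso_le_ceEq n))⟩,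
    fun E hE => ⟨hE.2.2 _ (isoRel_equivalence VC n) hS, hnot E hE⟩⟩

end Pool.Agent.Results.MP_f76ce6_lc.Constants
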